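import Pool.Agent.Helper18.ED.St

/-!
# Entropy decrement, module OS: one step
-/

set_option autoImplicit false

namespace Pool.Agent.Helper18.ED

open Finset

theorem pf_Step (hTele : StTele) (hLow : StAaLower) (hUp : StAaUpper) (hCl : StClose)
    (hNn : StCEnonneg) : StStep := by
  intro P hP f H M hH hM η hη
  have hH' : (1 : ℝ) ≤ H := by exact_mod_cast hH
  have hH0 : (0 : ℝ) < H := by linarith
  have hnn : ∀ y, 0 ≤ aa P f H 1 y := fun y =>
    div_nonneg (hNn P hP f 1 (H * y) _ (Nat.factorial_pos y)) (by positivity)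
  set S : Set ℝ := {a | ∃ y, 1 ≤ y ∧ a = aa P f H 1 y} with hS
  have hSne : S.Nonempty := ⟨_, 1, le_rfl, rfl⟩
  have hSbdd : BddBelow S := ⟨0, by rintro _ ⟨y, _, rfl⟩; exact hnn y⟩
  set L := sInf S with hL
  have hLle : ∀ y, 1 ≤ y → L ≤ aa P f H 1 y := fun y hy => csInf_le hSbdd ⟨y, hy, rfl⟩
  have hL0 : 0 ≤ L := le_csInf hSne (by rintro _ ⟨y, _, rfl⟩; exact hnn y)
  set ε := η / (8 * H) with hε
  have hε0 : 0 < ε := by positivity
  have hεH : 8 * H * ε = η := by rw [hε]; field_simp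
  obtain ⟨_, ⟨y1, hy1, rfl⟩, hlt⟩ := exists_lt_of_csInf_lt hSne
    (show sInf S < L + ε by linarith)
  have hy1' : (1 : ℝ) ≤ y1 := by exact_mod_cast hy1
  obtain ⟨δ, hδ, hcl⟩ := hCl P hP f (H * y1) (Nat.factorial y1) (Nat.factorial_pos y1) ε hε0
  obtain ⟨N, hN⟩ := exists_nat_gt (4 * H * y1 * (L + 2 * ε) / η)
  have hHy1 : 1 ≤ H * y1 := Nat.mul_pos hH hy1
  refine ⟨H * y1, Nat.factorial y1, δ, hδ, max (max y1 M) N, hHy1, Nat.factorial_pos y1, ?_⟩
  intro w hw m hm hrough hTV r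
  have hwy : y1 ≤ w := le_trans (le_trans (le_max_left _ _) (le_max_left _ _)) hw
  have hwM : M ≤ w := le_trans (le_trans (le_max_right _ _) (le_max_left _ _)) hw
  have hwN : N ≤ w := le_trans (le_max_right _ _) hw
  have hw1 : 1 ≤ w := le_trans hy1 hwy
  have hw0 : (0 : ℝ) < w := by exact_mod_cast hw1
  have hcop : Nat.Coprime m (Nat.factorial y1) := by
    refine Nat.coprime_of_dvd fun k hk hkm hkn => ?_
    have h1 := hrough k hk hkm
    have h2 := (hk.dvd_factorial).1 hkn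
    omega
  have h2r : 1 ≤ 2 ^ r * w := Nat.mul_pos (by positivity) hw1
  have h1 := hcl m hm hcop hTV
  have h2 := hUp P hP f m H w (H * y1) (Nat.factorial y1) hH hw1 hHy1
    (Nat.factorial_dvd_factorial hwy)
  have h3 := hLow P hP f m H (2 ^ r * w) hH h2r hm
  have h4 := hLle (m * (2 ^ r * w)) (Nat.mul_pos hm h2r)
  have h5 := hTele P hP f m H M w r hH hw1 (Nat.dvd_factorial hM hwM)
  have hHy : (1 : ℝ) ≤ (H : ℝ) * y1 := by exact_mod_cast hHy1
  have hc : cE P f m (H * y1) (Nat.factorial y1) / ((H * y1 : ℕ) : ℝ) ≤ L + 2 * ε := by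
    have ha : aa P f H 1 y1 = cE P f 1 (H * y1) (Nat.factorial y1) / ((H : ℝ) * y1) := rfl
    push_cast
    have h7 : cE P f m (H * y1) (Nat.factorial y1) / ((H : ℝ) * y1) ≤
        (cE P f 1 (H * y1) (Nat.factorial y1) + ε) / ((H : ℝ) * y1) :=
      div_le_div_of_nonneg_right h1 (by linarith)
    have h6 : ε / ((H : ℝ) * y1) ≤ ε := div_le_self hε0.le hHy
    rw [add_div] at h7
    linarith
  have hq : ((H * y1 : ℕ) : ℝ) / ((H : ℝ) * w) = y1 / w := by
    push_cast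
    field_simp
  rw [hq] at h2
  have h8 : aa P f H m w ≤ (1 + (y1 : ℝ) / w) * (L + 2 * ε) :=
    h2.trans (mul_le_mul_of_nonneg_left hc (by positivity))
  have h9 : 2 * H * ((y1 : ℝ) / w * (L + 2 * ε)) ≤ η / 2 := by
    have h10 : 4 * H * y1 * (L + 2 * ε) ≤ η * w := by
      have h11 : 4 * H * y1 * (L + 2 * ε) / η ≤ w := by
        have : (N : ℝ) ≤ w := by exact_mod_cast hwN
        linarith
      rw [div_le_iff₀ hη] at h11
      linarith
    have h12 : 2 * H * ((y1 : ℝ) / w * (L + 2 * ε)) = (4 * H * y1 * (L + 2 * ε)) / (2 * w) := by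
      field_simp
      ring
    rw [h12, div_le_iff₀ (by positivity)]
    linarith
  refine h5.trans ?_
  have h13 : aa P f H m w - aa P f H m (2 ^ r * w) ≤ (1 + (y1 : ℝ) / w) * (L + 2 * ε) - L := by
    linarith
  calc 2 * (H : ℝ) * (aa P f H m w - aa P f H m (2 ^ r * w))
      ≤ 2 * H * ((1 + (y1 : ℝ) / w) * (L + 2 * ε) - L) :=
        mul_le_mul_of_nonneg_left h13 (by positivity)
    _ = 2 * H * ((y1 : ℝ) / w * (L + 2 * ε)) + (8 * H * ε) / 2 := by ring
    _ ≤ η / 2 + η / 2 := by rw [hεH]; linarith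
    _ = η := by ring

end Pool.Agent.Helper18.ED
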